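import Pool.Agent.H65.TT.Y

set_option autoImplicit false

open MeasureTheory

namespace H65.TT

open H5.TT

theorem t_BDD (hY : S_YNG') : S_BDD := by
  obtain ⟨C, hC, hY⟩ := hY
  intro k z R hz lam hlam
  set Z : ℝ := ∑ j, z j with hZdef
  have hZ : 0 ≤ Z := Finset.sum_nonneg (fun j _ => hz j)
  set ε : ℝ := 1 / (1 + Z) with hεdef
  have hε : 0 < ε := by positivity
  refine ⟨Z * (C * ε ^ (-(3 / 2) : ℝ) + lam), ?_⟩
  intro l hl ϱ hϱ
  have h1 : att z R l ϱ ≤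
      Z * (3 / 5 * ε * (∫ x, ϱ x ^ (5 / 3 : ℝ)) + C * ε ^ (-(3 / 2) : ℝ) + lam) := by
    unfold att
    rw [hZdef, Finset.sum_mul]
    refine Finset.sum_le_sum fun j _ => mul_le_mul_of_nonneg_left ?_ (hz j)
    exact (hY lam ϱ hϱ (l • R j) ε hε).2
  have h2 : 0 ≤ dd ϱ ϱ := integral_nonneg
    (fun p => div_nonneg (mul_nonneg (hϱ.2.1 _) (hϱ.2.1 _)) (norm_nonneg _))
  have h3 : rep z (fun j => l • R j) = rep z R / l := by
    unfold rep
    rw [Finset.sum_div]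
    refine Finset.sum_congr rfl fun i _ => ?_
    rw [Finset.sum_div]
    refine Finset.sum_congr rfl fun j _ => ?_
    rw [← smul_sub, norm_smul, Real.norm_of_nonneg hl.le, div_div, mul_comm l]
  have hI : 0 ≤ ∫ x, ϱ x ^ (5 / 3 : ℝ) :=
    integral_nonneg (fun x => Real.rpow_nonneg (hϱ.2.1 x) _)
  have h4 : Z * ε ≤ 1 := by
    rw [hεdef, mul_one_div, div_le_one (by positivity)]
    linarith
  have h5 : (Z * ε) * (∫ x, ϱ x ^ (5 / 3 : ℝ)) ≤ 1 * (∫ x, ϱ x ^ (5 / 3 : ℝ)) :=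
    mul_le_mul_of_nonneg_right h4 hI
  unfold tf kin
  rw [h3]
  nlinarith

end H65.TT
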