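import Pool.Agent.H5.TT.Stm

set_option autoImplicit false

open MeasureTheory

namespace H65.TT

open H5.TT

theorem adm_mix (hPER : S_PER) {lam a b : ℝ} {σ τ : R3 → ℝ} (hσ : Adm lam σ) (hτ : Adm lam τ)
    (ha : 0 ≤ a) (hb : 0 ≤ b) (hab : a + b = 1) : Adm lam (fun x => a * σ x + b * τ x) := by
  obtain ⟨s1, s2, s3, s4, s5⟩ := hσ
  obtain ⟨t1, t2, t3, t4, t5⟩ := hτ
  have hm : Measurable (fun x => a * σ x + b * τ x) := (s1.const_mul a).add (t1.const_mul b)
  have hnn : ∀ x, 0 ≤ a * σ x + b * τ x := fun x =>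
    add_nonneg (mul_nonneg ha (s2 x)) (mul_nonneg hb (t2 x))
  refine ⟨hm, hnn, (s3.const_mul a).add (t3.const_mul b), ?_, ?_⟩
  · refine Integrable.mono' ((s4.const_mul a).add (t4.const_mul b))
      (hm.pow_const _).aestronglyMeasurable (Filter.Eventually.of_forall fun x => ?_)
    rw [Real.norm_of_nonneg (Real.rpow_nonneg (hnn x) _)]
    have := hPER (σ x) (τ x) 1 1 b (s2 x) (t2 x) one_pos one_pos hb (by linarith)
    have e1 : (1 - b) = a := by linarith
    rw [e1] at this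
    simp only [mul_one, hab, Real.one_rpow, one_mul] at this
    exact this
  · rw [integral_add (s3.const_mul a) (t3.const_mul b), integral_const_mul, integral_const_mul,
      s5, t5, ← add_mul, hab, one_mul]

theorem kin_mix (hPER : S_PER) {lam a b r s : ℝ} {σ τ : R3 → ℝ} (hσ : Adm lam σ) (hτ : Adm lam τ)
    (ha : 0 ≤ a) (hb : 0 ≤ b) (hab : a + b = 1) (hr : 0 < r) (hs : 0 < s) :
    (a * r + b * s) ^ (-(2 / 3) : ℝ) * kin (fun x => a * σ x + b * τ x) ≤
      a * (r ^ (-(2 / 3) : ℝ) * kin σ) + b * (s ^ (-(2 / 3) : ℝ) * kin τ) := by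
  have hA := adm_mix hPER hσ hτ ha hb hab
  obtain ⟨s1, s2, s3, s4, s5⟩ := hσ
  obtain ⟨t1, t2, t3, t4, t5⟩ := hτ
  have h1 : ∫ x, (a * r + b * s) ^ (-(2 / 3) : ℝ) * (a * σ x + b * τ x) ^ (5 / 3 : ℝ) ≤
      ∫ x, (a * (r ^ (-(2 / 3) : ℝ) * σ x ^ (5 / 3 : ℝ)) +
        b * (s ^ (-(2 / 3) : ℝ) * τ x ^ (5 / 3 : ℝ))) := by
    refine integral_mono (hA.2.2.2.1.const_mul _)
      (((s4.const_mul _).const_mul _).add ((t4.const_mul _).const_mul _)) fun x => ?_
    have := hPER (σ x) (τ x) r s b (s2 x) (t2 x) hr hs hb (by linarith)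
    have e1 : (1 - b) = a := by linarith
    rw [e1] at this
    exact this
  rw [integral_add ((s4.const_mul _).const_mul _) ((t4.const_mul _).const_mul _),
    integral_const_mul, integral_const_mul, integral_const_mul, integral_const_mul,
    integral_const_mul] at h1
  unfold kin
  nlinarith

theorem att_mix {k : ℕ} (z : Fin k → ℝ) (R : Fin k → R3)
    (hInt : ∀ (lam : ℝ) (ϱ : R3 → ℝ), Adm lam ϱ → ∀ a : R3, Integrable (fun x => ϱ x / ‖x - a‖))
    {lam a b l : ℝ} {σ τ : R3 → ℝ} (hσ : Adm lam σ) (hτ : Adm lam τ) :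
    att z R l (fun x => a * σ x + b * τ x) = a * att z R l σ + b * att z R l τ := by
  unfold att
  rw [Finset.mul_sum, Finset.mul_sum, ← Finset.sum_add_distrib]
  refine Finset.sum_congr rfl fun j _ => ?_
  have h1 : (fun x => (a * σ x + b * τ x) / ‖x - l • R j‖) =
      fun x => a * (σ x / ‖x - l • R j‖) + b * (τ x / ‖x - l • R j‖) := by
    funext x; ring
  rw [h1, integral_add ((hInt lam σ hσ _).const_mul a) ((hInt lam τ hτ _).const_mul b),
    integral_const_mul, integral_const_mul]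
  ring

theorem dd_mix (hCOU : S_COU) (hDFI : S_DFI) {lam a b : ℝ} {σ τ : R3 → ℝ} (hσ : Adm lam σ)
    (hτ : Adm lam τ) (ha : 0 ≤ a) (hb : 0 ≤ b) (hab : a + b = 1) :
    dd (fun x => a * σ x + b * τ x) (fun x => a * σ x + b * τ x) ≤ a * dd σ σ + b * dd τ τ := by
  have i1 := hDFI lam lam σ σ hσ hσ
  have i2 := hDFI lam lam σ τ hσ hτ
  have i3 := hDFI lam lam τ σ hτ hσ
  have i4 := hDFI lam lam τ τ hτ hτ
  have h : dd (fun x => a * σ x + b * τ x) (fun x => a * σ x + b * τ x) =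
      a ^ 2 * dd σ σ + a * b * dd σ τ + a * b * dd τ σ + b ^ 2 * dd τ τ := by
    unfold dd
    have h1 : (fun p : R3 × R3 => (a * σ p.1 + b * τ p.1) * (a * σ p.2 + b * τ p.2) / ‖p.1 - p.2‖) =
        fun p => a ^ 2 * (σ p.1 * σ p.2 / ‖p.1 - p.2‖) + a * b * (σ p.1 * τ p.2 / ‖p.1 - p.2‖) +
          a * b * (τ p.1 * σ p.2 / ‖p.1 - p.2‖) + b ^ 2 * (τ p.1 * τ p.2 / ‖p.1 - p.2‖) := by
      funext p; ring
    rw [h1, integral_add, integral_add, integral_add, integral_const_mul, integral_const_mul,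
      integral_const_mul, integral_const_mul]
    · exact i1.const_mul _
    · exact i2.const_mul _
    · exact (i1.const_mul _).add (i2.const_mul _)
    · exact i3.const_mul _
    · exact ((i1.const_mul _).add (i2.const_mul _)).add (i3.const_mul _)
    · exact i4.const_mul _
  have c1 := hCOU lam lam σ τ hσ hτ
  have c2 := hCOU lam lam τ σ hτ hσ
  have hab' : 0 ≤ a * b := mul_nonneg ha hb
  rw [h]
  have d1 := mul_le_mul_of_nonneg_left c1 hab'
  have d2 := mul_le_mul_of_nonneg_left c2 hab'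
  have e1 : a ^ 2 * dd σ σ + a * b * (dd σ σ + dd τ τ) + b ^ 2 * dd τ τ =
      (a + b) * (a * dd σ σ + b * dd τ τ) := by ring
  rw [hab, one_mul] at e1
  nlinarith

theorem t_GCX (hINF : S_INF) (hPER : S_PER) (hCOU : S_COU) (hDFI : S_DFI)
    (hInt : ∀ (lam : ℝ) (ϱ : R3 → ℝ), Adm lam ϱ → ∀ a : R3,
      Integrable (fun x => ϱ x / ‖x - a‖)) : S_GCX := by
  intro k z R hz lam hlam
  refine ⟨convex_Ioi 0, ?_⟩
  intro r hr s hs a b ha hb hab
  simp only [Set.mem_Ioi] at hr hs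
  simp only [smul_eq_mul]
  have hq : 0 < a * r + b * s := by
    rcases ha.eq_or_lt with h | h
    · rw [← h] at hab ⊢
      have : b = 1 := by linarith
      rw [this]; linarith
    · exact add_pos_of_pos_of_nonneg (mul_pos h hr) (mul_nonneg hb hs.le)
  have pr : 0 < r ^ (2 / 3 : ℝ) := Real.rpow_pos_of_pos hr _
  have ps : 0 < s ^ (2 / 3 : ℝ) := Real.rpow_pos_of_pos hs _
  have pq : 0 < (a * r + b * s) ^ (2 / 3 : ℝ) := Real.rpow_pos_of_pos hq _
  obtain ⟨nr, br, er⟩ := hINF k z R hz lam _ hlam pr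
  obtain ⟨ns, bs, es⟩ := hINF k z R hz lam _ hlam ps
  obtain ⟨nq, bq, eq⟩ := hINF k z R hz lam _ hlam pq
  rw [er, es, eq]
  refine le_of_forall_pos_le_add fun ε hε => ?_
  obtain ⟨x, ⟨σ, hσ, rfl⟩, hx⟩ := exists_lt_of_csInf_lt nr (lt_add_of_pos_right _ hε)
  obtain ⟨y, ⟨τ, hτ, rfl⟩, hy⟩ := exists_lt_of_csInf_lt ns (lt_add_of_pos_right _ hε)
  have hm := adm_mix hPER hσ hτ ha hb hab
  refine (csInf_le bq ⟨_, hm, rfl⟩).trans ?_
  have k1 := kin_mix hPER hσ hτ ha hb hab hr hs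
  rw [Real.rpow_neg hr.le, Real.rpow_neg hs.le, Real.rpow_neg hq.le] at k1
  have k2 := att_mix z R hInt (a := a) (b := b) (l := 1) hσ hτ
  have k3 := dd_mix hCOU hDFI hσ hτ ha hb hab
  rw [k2]
  have x1 := mul_le_mul_of_nonneg_left hx.le ha
  have y1 := mul_le_mul_of_nonneg_left hy.le hb
  have z1 : rep z R = a * rep z R + b * rep z R := by rw [← add_mul, hab, one_mul]
  have z2 : ε = a * ε + b * ε := by rw [← add_mul, hab, one_mul]
  rw [mul_add, mul_add] at x1 y1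
  rw [mul_add] at x1 y1
  nlinarith

end H65.TT
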