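import Pool.Agent.H5.TT.Stm

set_option autoImplicit false

open MeasureTheory

namespace H65.TT

open H5.TT

/-- `S_YNG` with the intended parentheses. -/
def S_YNG' : Prop := ∃ C : ℝ, 0 ≤ C ∧ ∀ (lam : ℝ) (ϱ : R3 → ℝ), Adm lam ϱ → ∀ (a : R3) (ε : ℝ),
  0 < ε → Integrable (fun x => ϱ x / ‖x - a‖) ∧
    (∫ x, ϱ x / ‖x - a‖) ≤
      3 / 5 * ε * (∫ x, ϱ x ^ (5 / 3 : ℝ)) + C * ε ^ (-(3 / 2) : ℝ) + lam

end H65.TT
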